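import Pool.Agent.H23.BO.Confl
import Pool.Agent.H68.Izer.RHS

/-!
# The homogeneous limit of the Izergin type determinant
-/

namespace Pool.Agent.H23.BO

open Finset Filter Topology Matrix

open Pool.Agent.H68.Izer (D RHS)

/-- Taylor coefficients of the kernel, truncated at total degree `N` -/
noncomputable def cf (w : ℂ) (N k l : ℕ) : ℂ :=
  (if k = l then w else 0) + if k + l < N then ((k + l).choose k : ℂ) else 0

lemma tri_sum (N : ℕ) (s t : ℂ) :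
    ∑ k ∈ range N, ∑ l ∈ range N, (if k + l < N then ((k + l).choose k : ℂ) else 0) * s ^ k * t ^ l
      = ∑ m ∈ range N, (s + t) ^ m := by
  have h1 : ∀ m ∈ range N, (s + t) ^ m =
      ∑ p ∈ ((range N ×ˢ range N).filter fun p ↦ p.1 + p.2 < N) with p.1 + p.2 = m,
        ((p.1 + p.2).choose p.1 : ℂ) * s ^ p.1 * t ^ p.2 := by
    intro m hm
    rw [Commute.add_pow' (Commute.all s t)]
    have h2 : (((range N ×ˢ range N).filter fun p : ℕ × ℕ ↦ p.1 + p.2 < N).filter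
        fun p ↦ p.1 + p.2 = m) = HasAntidiagonal.antidiagonal m := by
      ext p
      simp only [mem_filter, mem_product, mem_range, HasAntidiagonal.mem_antidiagonal]
      have := mem_range.1 hm
      constructor
      · rintro ⟨_, h⟩; exact h
      · intro h
        refine ⟨⟨⟨by omega, by omega⟩, by omega⟩, h⟩
    rw [h2]
    refine sum_congr rfl fun p hp ↦ ?_
    rw [HasAntidiagonal.mem_antidiagonal] at hp
    rw [hp, nsmul_eq_mul]
    ring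
  rw [sum_congr rfl h1, sum_fiberwise_of_maps_to
    (s := (range N ×ˢ range N).filter fun p : ℕ × ℕ ↦ p.1 + p.2 < N) (t := range N)
    (g := fun p ↦ p.1 + p.2), sum_filter, sum_product]
  · refine sum_congr rfl fun k _ ↦ sum_congr rfl fun l _ ↦ ?_
    dsimp only
    split_ifs <;> ring
  · intro p hp
    exact mem_range.2 (mem_filter.1 hp).2

lemma diag_sum (w : ℂ) (N : ℕ) (s t : ℂ) :
    ∑ k ∈ range N, ∑ l ∈ range N, (if k = l then w else 0) * s ^ k * t ^ l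
      = w * ∑ m ∈ range N, (s * t) ^ m := by
  rw [mul_sum]
  refine sum_congr rfl fun k hk ↦ ?_
  rw [sum_eq_single k]
  · rw [if_pos rfl, mul_pow]
    ring
  · intro l _ hl
    rw [if_neg (Ne.symm hl)]
    ring
  · intro h
    exact absurd hk h

lemma cf_sum (w : ℂ) (N : ℕ) (s t : ℂ) :
    ∑ k ∈ range N, ∑ l ∈ range N, cf w N k l * s ^ k * t ^ l =
      w * ∑ m ∈ range N, (s * t) ^ m + ∑ m ∈ range N, (s + t) ^ m := by
  rw [← diag_sum, ← tri_sum, ← sum_add_distrib]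
  refine sum_congr rfl fun k _ ↦ ?_
  rw [← sum_add_distrib]
  refine sum_congr rfl fun l _ ↦ ?_
  unfold cf
  ring

lemma kernel_expansion (w : ℂ) (N : ℕ) (s t : ℂ) (h1 : 1 - s * t ≠ 0) (h2 : 1 - s - t ≠ 0) :
    w / (1 - s * t) + 1 / (1 - s - t) =
      (∑ k ∈ range N, ∑ l ∈ range N, cf w N k l * s ^ k * t ^ l) +
        (w * (s * t) ^ N / (1 - s * t) + (s + t) ^ N / (1 - s - t)) := by
  rw [cf_sum]
  have h3 := mul_neg_geom_sum (s * t) N
  have h4 := mul_neg_geom_sum (s + t) N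
  have h5 : 1 - (s + t) = 1 - s - t := by ring
  rw [h5] at h4
  have h6 : ∑ m ∈ range N, (s * t) ^ m = (1 - (s * t) ^ N) / (1 - s * t) := by
    rw [eq_div_iff h1, mul_comm]
    exact h3
  have h7 : ∑ m ∈ range N, (s + t) ^ m = (1 - (s + t) ^ N) / (1 - s - t) := by
    rw [eq_div_iff h2, mul_comm]
    exact h4
  rw [h6, h7]
  field_simp
  ring

/-- the Pascal matrix -/
def pascal (L : ℕ) : Matrix (Fin L) (Fin L) ℂ := of fun i j ↦ (((i : ℕ) + j).choose i : ℂ)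

lemma cf_matrix (w : ℂ) (L : ℕ) :
    (of fun k l : Fin L ↦ cf w (2 * L) k l) = w • (1 : Matrix (Fin L) (Fin L) ℂ) + pascal L := by
  ext k l
  rw [Matrix.add_apply, Matrix.smul_apply, one_apply, pascal, of_apply, of_apply, cf,
    if_pos (show (k : ℕ) + l < 2 * L by omega)]
  simp only [smul_eq_mul, mul_ite, mul_one, mul_zero, Fin.ext_iff]

section assembly

variable (n : ℕ)

/-- the path to the homogeneous point -/
noncomputable def pt (ε : ℂ) (i : Fin (2 * n)) : ℂ := 1 / 2 + ε * ((i : ℕ) + 1)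

/-- directions -/
noncomputable def sg (ε : ℂ) (i : Fin (2 * n)) : ℂ := 2 * ((i : ℕ) + 1) / (pt n ε i - 2)

/-- directions -/
noncomputable def ta (ε : ℂ) (i : Fin (2 * n)) : ℂ := 2 * ((i : ℕ) + 1) / (pt n ε i + 1)

lemma pt_tendsto (i : Fin (2 * n)) : Tendsto (fun ε ↦ pt n ε i) (𝓝[≠] 0) (𝓝 (1 / 2)) := by
  have h : Continuous fun ε : ℂ ↦ pt n ε i := by
    unfold pt; fun_prop
  have h2 := h.tendsto 0
  have h3 : pt n 0 i = 1 / 2 := by simp [pt]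
  rw [h3] at h2
  exact h2.mono_left nhdsWithin_le_nhds

lemma sg_tendsto (i : Fin (2 * n)) :
    Tendsto (fun ε ↦ sg n ε i) (𝓝[≠] 0) (𝓝 (-(4 / 3) * ((i : ℕ) + 1))) := by
  have h : Tendsto (fun ε ↦ sg n ε i) (𝓝[≠] 0) (𝓝 (2 * ((i : ℕ) + 1) / (1 / 2 - 2))) := by
    refine Tendsto.div tendsto_const_nhds ((pt_tendsto n i).sub tendsto_const_nhds) (by norm_num)
  have e : (2 * ((i : ℕ) + 1) / (1 / 2 - 2) : ℂ) = -(4 / 3) * ((i : ℕ) + 1) := by
    norm_num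
    ring
  rwa [e] at h

lemma ta_tendsto (i : Fin (2 * n)) :
    Tendsto (fun ε ↦ ta n ε i) (𝓝[≠] 0) (𝓝 ((4 / 3) * ((i : ℕ) + 1))) := by
  have h : Tendsto (fun ε ↦ ta n ε i) (𝓝[≠] 0) (𝓝 (2 * ((i : ℕ) + 1) / (1 / 2 + 1))) := by
    refine Tendsto.div tendsto_const_nhds ((pt_tendsto n i).add tendsto_const_nhds) (by norm_num)
  have e : (2 * ((i : ℕ) + 1) / (1 / 2 + 1) : ℂ) = (4 / 3) * ((i : ℕ) + 1) := by
    norm_num
    ring
  rwa [e] at h

/-- the kernel matrix along the path -/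
noncomputable def KK (w : ℂ) (ε : ℂ) : Matrix (Fin (2 * n)) (Fin (2 * n)) ℂ := of fun i j ↦
  w / (1 - (ε * sg n ε i) * (ε * ta n ε j)) + 1 / (1 - ε * sg n ε i - ε * ta n ε j)

lemma eps_tendsto : Tendsto (fun ε : ℂ ↦ ε) (𝓝[≠] 0) (𝓝 0) :=
  tendsto_id.mono_left nhdsWithin_le_nhds

lemma den1_tendsto (i j : Fin (2 * n)) :
    Tendsto (fun ε ↦ 1 - (ε * sg n ε i) * (ε * ta n ε j)) (𝓝[≠] 0) (𝓝 1) := by
  have h := (tendsto_const_nhds (x := (1 : ℂ))).sub ((eps_tendsto.mul (sg_tendsto n i)).mul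
    (eps_tendsto.mul (ta_tendsto n j)))
  simpa using h

lemma den2_tendsto (i j : Fin (2 * n)) :
    Tendsto (fun ε ↦ 1 - ε * sg n ε i - ε * ta n ε j) (𝓝[≠] 0) (𝓝 1) := by
  have h := ((tendsto_const_nhds (x := (1 : ℂ))).sub (eps_tendsto.mul (sg_tendsto n i))).sub
    (eps_tendsto.mul (ta_tendsto n j))
  simpa using h

lemma sg0_injective : Function.Injective fun i : Fin (2 * n) ↦ (-(4 / 3) * ((i : ℕ) + 1) : ℂ) := by
  intro i j h
  have h1 : ((i : ℕ) : ℂ) = ((j : ℕ) : ℂ) := by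
    have h2 : (-(4 / 3) : ℂ) ≠ 0 := by norm_num
    have h3 := mul_left_cancel₀ h2 h
    exact add_right_cancel h3
  exact Fin.ext (by exact_mod_cast h1)

lemma ta0_injective : Function.Injective fun i : Fin (2 * n) ↦ ((4 / 3) * ((i : ℕ) + 1) : ℂ) := by
  intro i j h
  have h1 : ((i : ℕ) : ℂ) = ((j : ℕ) : ℂ) := by
    have h2 : ((4 / 3) : ℂ) ≠ 0 := by norm_num
    have h3 := mul_left_cancel₀ h2 h
    exact add_right_cancel h3
  exact Fin.ext (by exact_mod_cast h1)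

lemma KK_det_tendsto (w : ℂ) :
    Tendsto (fun ε ↦ (KK n w ε).det / (∏ k : Fin (2 * n), ε ^ (k : ℕ)) ^ 2) (𝓝[≠] 0)
      (𝓝 ((w • (1 : Matrix (Fin (2 * n)) (Fin (2 * n)) ℂ) + pascal (2 * n)).det *
        (vandermonde fun i : Fin (2 * n) ↦ (-(4 / 3) * ((i : ℕ) + 1) : ℂ)).det *
        (vandermonde fun i : Fin (2 * n) ↦ ((4 / 3) * ((i : ℕ) + 1) : ℂ)).det)) := by
  rw [← cf_matrix]
  refine confl (sg n) (ta n) _ _ (sg0_injective n) (ta0_injective n) (sg_tendsto n)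
    (ta_tendsto n) (cf w (2 * (2 * n)))
    (fun ε i j ↦ w * (ε * (sg n ε i * ta n ε j)) ^ (2 * (2 * n)) /
      (1 - (ε * sg n ε i) * (ε * ta n ε j)) +
      (sg n ε i + ta n ε j) ^ (2 * (2 * n)) / (1 - ε * sg n ε i - ε * ta n ε j))
    (fun i j ↦ w * (0 * ((-(4 / 3) * ((i : ℕ) + 1)) * ((4 / 3) * ((j : ℕ) + 1)))) ^ (2 * (2 * n)) /
      1 + ((-(4 / 3) * ((i : ℕ) + 1)) + ((4 / 3) * ((j : ℕ) + 1))) ^ (2 * (2 * n)) / 1)
    ?_ (KK n w) ?_
  · intro i j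
    refine Tendsto.add ?_ ?_
    · refine Tendsto.div ?_ (den1_tendsto n i j) one_ne_zero
      exact tendsto_const_nhds.mul ((eps_tendsto.mul ((sg_tendsto n i).mul (ta_tendsto n j))).pow _)
    · refine Tendsto.div ?_ (den2_tendsto n i j) one_ne_zero
      exact ((sg_tendsto n i).add (ta_tendsto n j)).pow _
  · have h1 : ∀ᶠ ε in 𝓝[≠] (0 : ℂ), ∀ i j : Fin (2 * n),
        1 - (ε * sg n ε i) * (ε * ta n ε j) ≠ 0 := by
      rw [eventually_all]
      intro i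
      rw [eventually_all]
      intro j
      exact (den1_tendsto n i j).eventually_ne one_ne_zero
    have h2 : ∀ᶠ ε in 𝓝[≠] (0 : ℂ), ∀ i j : Fin (2 * n),
        1 - ε * sg n ε i - ε * ta n ε j ≠ 0 := by
      rw [eventually_all]
      intro i
      rw [eventually_all]
      intro j
      exact (den2_tendsto n i j).eventually_ne one_ne_zero
    filter_upwards [h1, h2] with ε h1 h2 i j
    simp only [KK, of_apply]
    rw [kernel_expansion w (2 * (2 * n)) _ _ (h1 i j) (h2 i j)]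
    congr 1
    have e1 : ε * sg n ε i * (ε * ta n ε j) = ε * (ε * (sg n ε i * ta n ε j)) := by ring
    have e2 : ε * sg n ε i + ε * ta n ε j = ε * (sg n ε i + ta n ε j) := by ring
    rw [e2, mul_pow ε (sg n ε i + ta n ε j), show (ε * sg n ε i * (ε * ta n ε j)) ^ (2 * (2 * n)) =
      ε ^ (2 * (2 * n)) * (ε * (sg n ε i * ta n ε j)) ^ (2 * (2 * n)) by rw [e1, mul_pow]]
    ring

lemma key_identity (w a b : ℂ) (h1 : a - 2 ≠ 0) (h2 : b + 1 ≠ 0) (h3 : D b a ≠ 0)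
    (h4 : D a b ≠ 0) :
    w / D b a + 1 / D a b = -3 / ((a - 2) * (b + 1)) *
      (w / (1 - ((2 * a - 1) / (a - 2)) * ((2 * b - 1) / (b + 1))) +
        1 / (1 - (2 * a - 1) / (a - 2) - (2 * b - 1) / (b + 1))) := by
  have e1 : 1 - ((2 * a - 1) / (a - 2)) * ((2 * b - 1) / (b + 1)) =
      -3 * D b a / ((a - 2) * (b + 1)) := by
    unfold D
    field_simp
    ring
  have e2 : 1 - (2 * a - 1) / (a - 2) - (2 * b - 1) / (b + 1) =
      -3 * D a b / ((a - 2) * (b + 1)) := by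
    unfold D
    field_simp
    ring
  rw [e1, e2]
  field_simp
  ring

lemma D_tendsto (i j : Fin (2 * n)) :
    Tendsto (fun ε ↦ D (pt n ε i) (pt n ε j)) (𝓝[≠] 0) (𝓝 (3 / 4)) := by
  have h : Tendsto (fun ε ↦ 1 - pt n ε j + pt n ε i * pt n ε j) (𝓝[≠] 0)
      (𝓝 (1 - 1 / 2 + 1 / 2 * (1 / 2))) :=
    (tendsto_const_nhds.sub (pt_tendsto n j)).add ((pt_tendsto n i).mul (pt_tendsto n j))
  have e : (1 - 1 / 2 + 1 / 2 * (1 / 2) : ℂ) = 3 / 4 := by norm_num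
  rw [e] at h
  exact h

lemma prod_eps (L : ℕ) (ε : ℂ) :
    ∏ i : Fin L, ∏ _j ∈ Ioi i, ε = ∏ k : Fin L, ε ^ (k : ℕ) := by
  have h1 : ∀ i : Fin L, ∏ _j ∈ Ioi i, ε = ε ^ ((Fin.rev i : Fin L) : ℕ) := by
    intro i
    rw [prod_const, Fin.card_Ioi, Fin.val_rev]
    congr 1
    omega
  simp only [h1]
  exact Equiv.prod_comp Fin.revPerm fun k : Fin L ↦ ε ^ (k : ℕ)

lemma prod_pairs (c : ℂ) : ∏ i : Fin (2 * n), ∏ _j ∈ Ioi i, c = c ^ (n * (2 * n - 1)) := by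
  rw [prod_eps, prod_pow_eq_pow_sum]
  congr 1
  rw [Fin.sum_univ_eq_sum_range (fun k ↦ k) (2 * n), sum_range_id]
  rcases n with _ | m
  · rfl
  · rw [mul_assoc, Nat.mul_div_cancel_left _ (by norm_num : 0 < 2)]

lemma det_eq (w ε : ℂ) (h1 : ∀ i, pt n ε i - 2 ≠ 0) (h2 : ∀ i, pt n ε i + 1 ≠ 0)
    (h3 : ∀ i j, D (pt n ε i) (pt n ε j) ≠ 0) :
    det (of fun i j ↦ w / D (pt n ε j) (pt n ε i) + 1 / D (pt n ε i) (pt n ε j)) =
      (∏ i, (-3 / (pt n ε i - 2))) * ((∏ j, (1 / (pt n ε j + 1))) * (KK n w ε).det) := by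
  rw [← det_mul_row, ← det_mul_column]
  congr 1
  ext i j
  simp only [of_apply, KK]
  rw [key_identity w _ _ (h1 i) (h2 j) (h3 j i) (h3 i j)]
  have e1 : ε * sg n ε i = (2 * pt n ε i - 1) / (pt n ε i - 2) := by
    have h := h1 i
    unfold sg
    field_simp
    unfold pt
    ring
  have e2 : ε * ta n ε j = (2 * pt n ε j - 1) / (pt n ε j + 1) := by
    have h := h2 j
    unfold ta
    field_simp
    unfold pt
    ring
  rw [e1, e2]
  have h4 := h1 i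
  have h5 := h2 j
  field_simp

lemma pairs_eq (ε : ℂ) (f : Fin (2 * n) → Fin (2 * n) → ℂ) :
    ∏ i, ∏ j ∈ Ioi i, f i j / (pt n ε i - pt n ε j) ^ 2 =
      (∏ i, ∏ j ∈ Ioi i, f i j / (((i : ℕ) : ℂ) - ((j : ℕ) : ℂ)) ^ 2) /
        (∏ k : Fin (2 * n), ε ^ (k : ℕ)) ^ 2 := by
  rw [← prod_eps, ← prod_pow, ← prod_div_distrib]
  refine prod_congr rfl fun i _ ↦ ?_
  rw [← prod_pow, ← prod_div_distrib]
  refine prod_congr rfl fun j _ ↦ ?_
  have e : pt n ε i - pt n ε j = (((i : ℕ) : ℂ) - ((j : ℕ) : ℂ)) * ε := by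
    unfold pt; ring
  rw [e, mul_pow, div_div]

/-- The homogeneous limit. -/
theorem RHS_tendsto (w : ℂ) :
    Tendsto (fun ε : ℂ ↦ RHS w n (pt n ε)) (𝓝[≠] 0)
      (𝓝 ((9 / 16) ^ (n * (2 * n - 1)) * (w ^ n)⁻¹ *
        (w • (1 : Matrix (Fin (2 * n)) (Fin (2 * n)) ℂ) + pascal (2 * n)).det)) := by
  set V1 := (vandermonde fun i : Fin (2 * n) ↦ (-(4 / 3) * ((i : ℕ) + 1) : ℂ)).det with hV1
  set V2 := (vandermonde fun i : Fin (2 * n) ↦ ((4 / 3) * ((i : ℕ) + 1) : ℂ)).det with hV2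
  set dd := (w • (1 : Matrix (Fin (2 * n)) (Fin (2 * n)) ℂ) + pascal (2 * n)).det with hdd
  have hlim : Tendsto (fun ε : ℂ ↦ (-1) ^ n * (w ^ n)⁻¹ *
      ((∏ i, (-3 / (pt n ε i - 2))) * ((∏ j, (1 / (pt n ε j + 1))) *
        ((KK n w ε).det / (∏ k : Fin (2 * n), ε ^ (k : ℕ)) ^ 2))) *
      (∏ i, D (pt n ε i) (pt n ε i)) *
      ∏ i, ∏ j ∈ Ioi i, (D (pt n ε i) (pt n ε j) * D (pt n ε j) (pt n ε i)) ^ 2 /
        (((i : ℕ) : ℂ) - ((j : ℕ) : ℂ)) ^ 2) (𝓝[≠] 0)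
      (𝓝 ((-1) ^ n * (w ^ n)⁻¹ *
      ((∏ _i : Fin (2 * n), (-3 / (1 / 2 - 2))) * ((∏ _j : Fin (2 * n), (1 / (1 / 2 + 1))) *
        (dd * V1 * V2))) *
      (∏ _i : Fin (2 * n), (3 / 4)) *
      ∏ i : Fin (2 * n), ∏ j ∈ Ioi i, (3 / 4 * (3 / 4)) ^ 2 /
        (((i : ℕ) : ℂ) - ((j : ℕ) : ℂ)) ^ 2)) := by
    refine Tendsto.mul (Tendsto.mul (Tendsto.mul tendsto_const_nhds (Tendsto.mul ?_
      (Tendsto.mul ?_ (KK_det_tendsto n w)))) ?_) ?_
    · exact tendsto_finsetProd _ fun i _ ↦ Tendsto.div tendsto_const_nhds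
        ((pt_tendsto n i).sub tendsto_const_nhds) (by norm_num)
    · exact tendsto_finsetProd _ fun i _ ↦ Tendsto.div tendsto_const_nhds
        ((pt_tendsto n i).add tendsto_const_nhds) (by norm_num)
    · exact tendsto_finsetProd _ fun i _ ↦ D_tendsto n i i
    · exact tendsto_finsetProd _ fun i _ ↦ tendsto_finsetProd _ fun j _ ↦
        (((D_tendsto n i j).mul (D_tendsto n j i)).pow 2).div_const _
  have hval : (-1) ^ n * (w ^ n)⁻¹ *
      ((∏ _i : Fin (2 * n), (-3 / (1 / 2 - 2))) * ((∏ _j : Fin (2 * n), (1 / (1 / 2 + 1))) *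
        (dd * V1 * V2))) *
      (∏ _i : Fin (2 * n), (3 / 4)) *
      ∏ i : Fin (2 * n), ∏ j ∈ Ioi i, (3 / 4 * (3 / 4)) ^ 2 /
        (((i : ℕ) : ℂ) - ((j : ℕ) : ℂ)) ^ 2 =
      (9 / 16) ^ (n * (2 * n - 1)) * (w ^ n)⁻¹ * dd := by
    have e1 : V1 * V2 * ∏ i : Fin (2 * n), ∏ j ∈ Ioi i, (3 / 4 * (3 / 4)) ^ 2 /
        (((i : ℕ) : ℂ) - ((j : ℕ) : ℂ)) ^ 2 = (-(9 / 16)) ^ (n * (2 * n - 1)) := by
      rw [← prod_pairs, hV1, hV2, det_vandermonde, det_vandermonde, ← prod_mul_distrib,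
        ← prod_mul_distrib]
      refine prod_congr rfl fun i _ ↦ ?_
      rw [← prod_mul_distrib, ← prod_mul_distrib]
      refine prod_congr rfl fun j hj ↦ ?_
      have hij : (((i : ℕ) : ℂ) - ((j : ℕ) : ℂ)) ≠ 0 := by
        rw [sub_ne_zero]
        have := mem_Ioi.1 hj
        intro h
        have h2 : (i : ℕ) = (j : ℕ) := by exact_mod_cast h
        exact this.ne (Fin.ext h2)
      field_simp
      ring
    have e2 : (∏ _i : Fin (2 * n), (-3 / (1 / 2 - 2) : ℂ)) * (∏ _j : Fin (2 * n),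
        (1 / (1 / 2 + 1) : ℂ)) * (∏ _i : Fin (2 * n), (3 / 4 : ℂ)) = 1 := by
      rw [← prod_mul_distrib, ← prod_mul_distrib]
      refine prod_eq_one fun i _ ↦ ?_
      norm_num
    have e3 : (-1 : ℂ) ^ n * (-(9 / 16)) ^ (n * (2 * n - 1)) = (9 / 16) ^ (n * (2 * n - 1)) := by
      rw [neg_pow (9 / 16 : ℂ), ← mul_assoc, ← pow_add]
      have e4 : Even (n + n * (2 * n - 1)) := by
        rcases n with _ | m
        · simp
        · refine ⟨(m + 1) * (m + 1), ?_⟩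
          have : 2 * (m + 1) - 1 = 2 * m + 1 := by omega
          rw [this]
          ring
      rw [e4.neg_one_pow, one_mul]
    calc _ = ((-1 : ℂ) ^ n * (V1 * V2 * ∏ i : Fin (2 * n), ∏ j ∈ Ioi i, (3 / 4 * (3 / 4)) ^ 2 /
          (((i : ℕ) : ℂ) - ((j : ℕ) : ℂ)) ^ 2)) *
          ((∏ _i : Fin (2 * n), (-3 / (1 / 2 - 2) : ℂ)) * (∏ _j : Fin (2 * n),
          (1 / (1 / 2 + 1) : ℂ)) * (∏ _i : Fin (2 * n), (3 / 4 : ℂ))) * (w ^ n)⁻¹ * dd := by ring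
      _ = _ := by rw [e1, e2, e3]; ring
  rw [hval] at hlim
  refine hlim.congr' ?_
  have h1 : ∀ᶠ ε in 𝓝[≠] (0 : ℂ), ∀ i : Fin (2 * n), pt n ε i - 2 ≠ 0 := by
    rw [eventually_all]
    intro i
    exact ((pt_tendsto n i).sub tendsto_const_nhds).eventually_ne (by norm_num)
  have h2 : ∀ᶠ ε in 𝓝[≠] (0 : ℂ), ∀ i : Fin (2 * n), pt n ε i + 1 ≠ 0 := by
    rw [eventually_all]
    intro i
    exact ((pt_tendsto n i).add tendsto_const_nhds).eventually_ne (by norm_num)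
  have h3 : ∀ᶠ ε in 𝓝[≠] (0 : ℂ), ∀ i j : Fin (2 * n), D (pt n ε i) (pt n ε j) ≠ 0 := by
    rw [eventually_all]
    intro i
    rw [eventually_all]
    intro j
    exact (D_tendsto n i j).eventually_ne (by norm_num)
  filter_upwards [h1, h2, h3] with ε h1 h2 h3
  unfold RHS
  rw [det_eq n w ε h1 h2 h3, pairs_eq]
  ring

/-- The homogeneous limit, in the form with explicit path. -/
theorem RHS_tendsto' (w : ℂ) :
    Tendsto (fun ε : ℂ ↦ RHS w n fun i : Fin (2 * n) ↦ 1 / 2 + ε * ((i : ℕ) + 1)) (𝓝[≠] 0)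
      (𝓝 ((9 / 16) ^ (n * (2 * n - 1)) * (w ^ n)⁻¹ *
        (w • (1 : Matrix (Fin (2 * n)) (Fin (2 * n)) ℂ) + pascal (2 * n)).det)) :=
  RHS_tendsto n w

end assembly

end Pool.Agent.H23.BO
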