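import Pool.Agent.H23.BO.Confl
import Pool.Agent.H51.TA.Defs

/-!
# The homogeneous limit of the determinant with `p` legs
-/

set_option autoImplicit false

namespace Pool.Agent.H23.BO

open Finset Filter Topology Matrix

namespace Legs

open Pool.Agent.H51.TA (D)

/-- the matrix `binom (i + j + p) i` -/
def PP (p M : ℕ) : Matrix (Fin M) (Fin M) ℂ := of fun i j => (((i : ℕ) + j + p).choose i : ℂ)

/-- product over the legs -/
noncomputable def V1 {p : ℕ} (u : Fin p → ℂ) (a : ℂ) : ℂ := ∏ k, D a (u k)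

/-- product over the legs -/
noncomputable def V2 {p : ℕ} (u : Fin p → ℂ) (a : ℂ) : ℂ := ∏ k, D (u k) a

/-- the determinant with legs -/
noncomputable def FF {p m : ℕ} (u : Fin p → ℂ) (Z : Fin m → ℂ) : ℂ :=
  det (of fun i j => V1 u (Z i) / D (Z j) (Z i) + V2 u (Z i) / D (Z i) (Z j)) *
    (∏ i, D (Z i) (Z i)) *
    ∏ i, ∏ j, (if i = j then 1 else D (Z i) (Z j) * D (Z j) (Z i) / (Z i - Z j))

/-! ### Taylor expansion of `(1-s)^(-p) / (1-s-t)` -/

/-- the homogeneous parts -/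
noncomputable def H (p m : ℕ) (s t : ℂ) : ℂ :=
  ∑ k ∈ range (m + 1), ((m + p).choose k : ℂ) * s ^ k * t ^ (m - k)

lemma H_zero (m : ℕ) (s t : ℂ) : H 0 m s t = (s + t) ^ m := by
  rw [H, add_pow]
  refine sum_congr rfl fun k _ => ?_
  rw [add_zero]
  ring

lemma H_deg_zero (p : ℕ) (s t : ℂ) : H p 0 s t = 1 := by
  simp [H]

lemma H_smul (p m : ℕ) (ε s t : ℂ) : H p m (ε * s) (ε * t) = ε ^ m * H p m s t := by
  rw [H, H, mul_sum]
  refine sum_congr rfl fun k hk => ?_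
  have h : m = k + (m - k) := by
    have := mem_range.1 hk
    omega
  have h2 : ε ^ m = ε ^ k * ε ^ (m - k) := by rw [← pow_add, ← h]
  rw [mul_pow, mul_pow, h2]
  ring

lemma H_succ (p m : ℕ) (s t : ℂ) :
    H (p + 1) (m + 1) s t = s * H (p + 1) m s t + H p (m + 1) s t := by
  have h1 : H (p + 1) (m + 1) s t =
      (∑ k ∈ range (m + 1), ((m + 1 + (p + 1)).choose (k + 1) : ℂ) * s ^ (k + 1) * t ^ (m - k)) +
        t ^ (m + 1) := by
    rw [H, sum_range_succ']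
    congr 1
    · refine sum_congr rfl fun k _ => ?_
      rw [Nat.add_sub_add_right]
    · simp
  have h2 : H p (m + 1) s t =
      (∑ k ∈ range (m + 1), ((m + 1 + p).choose (k + 1) : ℂ) * s ^ (k + 1) * t ^ (m - k)) +
        t ^ (m + 1) := by
    rw [H, sum_range_succ']
    congr 1
    · refine sum_congr rfl fun k _ => ?_
      rw [Nat.add_sub_add_right]
    · simp
  have h4 : (∑ k ∈ range (m + 1),
      ((m + 1 + (p + 1)).choose (k + 1) : ℂ) * s ^ (k + 1) * t ^ (m - k)) =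
      s * H (p + 1) m s t +
      ∑ k ∈ range (m + 1), ((m + 1 + p).choose (k + 1) : ℂ) * s ^ (k + 1) * t ^ (m - k) := by
    rw [H, mul_sum, ← sum_add_distrib]
    refine sum_congr rfl fun k _ => ?_
    have h3 : (m + 1 + (p + 1)).choose (k + 1) =
        (m + (p + 1)).choose k + (m + 1 + p).choose (k + 1) := by
      have e : m + 1 + (p + 1) = (m + 1 + p) + 1 := by ring
      have e2 : m + (p + 1) = m + 1 + p := by ring
      rw [e, e2, Nat.choose_succ_succ']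
    rw [h3]
    push_cast
    ring
  rw [h1, h2, h4]
  ring

lemma H_telescope (p M : ℕ) (s t : ℂ) :
    (1 - s) * ∑ m ∈ range (M + 1), H (p + 1) m s t =
      ∑ m ∈ range (M + 1), H p m s t - s * H (p + 1) M s t := by
  induction M with
  | zero => simp [H_deg_zero]
  | succ M ih =>
    rw [sum_range_succ, mul_add, ih, sum_range_succ _ (M + 1), H_succ]
    ring

/-- the remainder -/
noncomputable def rr (M : ℕ) : ℕ → ℂ → ℂ → ℂ → ℂ
  | 0, ε, s, t => (s + t) ^ (M + 1) / (1 - ε * s - ε * t)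
  | p + 1, ε, s, t => (rr M p ε s t + s * H (p + 1) M s t) / (1 - ε * s)

lemma expansion (M p : ℕ) (ε s t : ℂ) (h1 : 1 - ε * s ≠ 0) (h2 : 1 - ε * s - ε * t ≠ 0) :
    1 / ((1 - ε * s) ^ p * (1 - ε * s - ε * t)) =
      ∑ m ∈ range (M + 1), H p m (ε * s) (ε * t) + ε ^ (M + 1) * rr M p ε s t := by
  induction p with
  | zero =>
    rw [pow_zero, one_mul, rr]
    have h3 : ∑ m ∈ range (M + 1), H 0 m (ε * s) (ε * t) =
        (1 - (ε * s + ε * t) ^ (M + 1)) / (1 - ε * s - ε * t) := by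
      simp only [H_zero]
      rw [eq_div_iff h2, mul_comm]
      have h4 := mul_neg_geom_sum (ε * s + ε * t) (M + 1)
      have h5 : 1 - (ε * s + ε * t) = 1 - ε * s - ε * t := by ring
      rw [h5] at h4
      exact h4
    rw [h3, ← mul_add, mul_pow]
    field_simp
    ring
  | succ p ih =>
    have h3 : 1 / ((1 - ε * s) ^ (p + 1) * (1 - ε * s - ε * t)) =
        (1 / ((1 - ε * s) ^ p * (1 - ε * s - ε * t))) / (1 - ε * s) := by
      rw [pow_succ]
      field_simp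
    rw [h3, ih, rr, div_eq_iff h1]
    have h4 := H_telescope p M (ε * s) (ε * t)
    rw [H_smul (p + 1) M] at h4
    have h5 : (ε ^ (M + 1) * ((rr M p ε s t + s * H (p + 1) M s t) / (1 - ε * s))) * (1 - ε * s) =
        ε ^ (M + 1) * (rr M p ε s t + s * H (p + 1) M s t) := by
      rw [mul_assoc, div_mul_cancel₀ _ h1]
    rw [add_mul, h5, mul_comm (∑ m ∈ range (M + 1), H (p + 1) m (ε * s) (ε * t)), h4]
    ring

lemma rr_tendsto (M p : ℕ) {σ τ : ℂ → ℂ} {σ0 τ0 : ℂ} (hσ : Tendsto σ (𝓝[≠] 0) (𝓝 σ0))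
    (hτ : Tendsto τ (𝓝[≠] 0) (𝓝 τ0)) :
    Tendsto (fun ε => rr M p ε (σ ε) (τ ε)) (𝓝[≠] 0) (𝓝 (rr M p 0 σ0 τ0)) := by
  have hε : Tendsto (fun ε : ℂ => ε) (𝓝[≠] 0) (𝓝 0) := tendsto_id.mono_left nhdsWithin_le_nhds
  induction p with
  | zero =>
    simp only [rr]
    refine Tendsto.div ((hσ.add hτ).pow _) ?_ (by simp)
    exact (tendsto_const_nhds.sub (hε.mul hσ)).sub (hε.mul hτ)
  | succ p ih =>
    simp only [rr]
    refine Tendsto.div (ih.add (hσ.mul ?_)) (tendsto_const_nhds.sub (hε.mul hσ)) (by simp)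
    unfold H
    exact tendsto_finsetSum _ fun k _ => (tendsto_const_nhds.mul (hσ.pow k)).mul (hτ.pow (M - k))

/-- Taylor coefficients of the kernel, truncated at total degree `N` -/
noncomputable def cp (p N k l : ℕ) : ℂ :=
  (if k = l then 1 else 0) + if k + l < N then ((k + l + p).choose k : ℂ) else 0

lemma tri_sum' (p N : ℕ) (s t : ℂ) :
    ∑ k ∈ range N, ∑ l ∈ range N,
      (if k + l < N then ((k + l + p).choose k : ℂ) else 0) * s ^ k * t ^ l
      = ∑ m ∈ range N, H p m s t := by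
  have h1 : ∀ m ∈ range N, H p m s t =
      ∑ q ∈ ((range N ×ˢ range N).filter fun q ↦ q.1 + q.2 < N) with q.1 + q.2 = m,
        ((q.1 + q.2 + p).choose q.1 : ℂ) * s ^ q.1 * t ^ q.2 := by
    intro m hm
    have h2 : (((range N ×ˢ range N).filter fun q : ℕ × ℕ ↦ q.1 + q.2 < N).filter
        fun q ↦ q.1 + q.2 = m) = HasAntidiagonal.antidiagonal m := by
      ext q
      simp only [mem_filter, mem_product, mem_range, HasAntidiagonal.mem_antidiagonal]
      have := mem_range.1 hm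
      constructor
      · rintro ⟨_, h⟩; exact h
      · intro h
        refine ⟨⟨⟨by omega, by omega⟩, by omega⟩, h⟩
    rw [h2, H, Finset.Nat.sum_antidiagonal_eq_sum_range_succ_mk]
    refine sum_congr rfl fun k hk => ?_
    have := mem_range.1 hk
    have e : k + (m - k) = m := by omega
    simp only
    rw [e]
  rw [sum_congr rfl h1, sum_fiberwise_of_maps_to
    (s := (range N ×ˢ range N).filter fun q : ℕ × ℕ ↦ q.1 + q.2 < N) (t := range N)
    (g := fun q ↦ q.1 + q.2), sum_filter, sum_product]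
  · refine sum_congr rfl fun k _ ↦ sum_congr rfl fun l _ ↦ ?_
    dsimp only
    split_ifs <;> ring
  · intro q hq
    exact mem_range.2 (mem_filter.1 hq).2

lemma diag_sum' (N : ℕ) (s t : ℂ) :
    ∑ k ∈ range N, ∑ l ∈ range N, (if k = l then (1 : ℂ) else 0) * s ^ k * t ^ l
      = ∑ m ∈ range N, (s * t) ^ m := by
  refine sum_congr rfl fun k hk ↦ ?_
  rw [sum_eq_single k]
  · rw [if_pos rfl, mul_pow]
    ring
  · intro l _ hl
    rw [if_neg (Ne.symm hl)]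
    ring
  · intro h
    exact absurd hk h

lemma cp_sum (p N : ℕ) (s t : ℂ) :
    ∑ k ∈ range N, ∑ l ∈ range N, cp p N k l * s ^ k * t ^ l =
      ∑ m ∈ range N, (s * t) ^ m + ∑ m ∈ range N, H p m s t := by
  rw [← diag_sum', ← tri_sum', ← sum_add_distrib]
  refine sum_congr rfl fun k _ ↦ ?_
  rw [← sum_add_distrib]
  refine sum_congr rfl fun l _ ↦ ?_
  unfold cp
  ring

lemma cp_matrix (p L : ℕ) :
    (of fun k l : Fin L ↦ cp p (2 * L) k l) = (1 : Matrix (Fin L) (Fin L) ℂ) + PP p L := by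
  ext k l
  rw [Matrix.add_apply, one_apply, PP, of_apply, of_apply, cp,
    if_pos (show (k : ℕ) + l < 2 * L by omega)]
  simp only [Fin.ext_iff]

section assembly

variable (p L : ℕ)

/-- the path to the homogeneous point -/
noncomputable def pt (ε : ℂ) (i : Fin L) : ℂ := 1 / 2 + ε * ((i : ℕ) + 1)

/-- directions -/
noncomputable def sg (ε : ℂ) (i : Fin L) : ℂ := 2 * ((i : ℕ) + 1) / (pt L ε i - 2)

/-- directions -/
noncomputable def ta (ε : ℂ) (i : Fin L) : ℂ := 2 * ((i : ℕ) + 1) / (pt L ε i + 1)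

lemma pt_tendsto (i : Fin L) : Tendsto (fun ε ↦ pt L ε i) (𝓝[≠] 0) (𝓝 (1 / 2)) := by
  have h : Continuous fun ε : ℂ ↦ pt L ε i := by
    unfold pt; fun_prop
  have h2 := h.tendsto 0
  have h3 : pt L 0 i = 1 / 2 := by simp [pt]
  rw [h3] at h2
  exact h2.mono_left nhdsWithin_le_nhds

lemma sg_tendsto (i : Fin L) :
    Tendsto (fun ε ↦ sg L ε i) (𝓝[≠] 0) (𝓝 (-(4 / 3) * ((i : ℕ) + 1))) := by
  have h : Tendsto (fun ε ↦ sg L ε i) (𝓝[≠] 0) (𝓝 (2 * ((i : ℕ) + 1) / (1 / 2 - 2))) := by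
    refine Tendsto.div tendsto_const_nhds ((pt_tendsto L i).sub tendsto_const_nhds) (by norm_num)
  have e : (2 * ((i : ℕ) + 1) / (1 / 2 - 2) : ℂ) = -(4 / 3) * ((i : ℕ) + 1) := by
    norm_num
    ring
  rwa [e] at h

lemma ta_tendsto (i : Fin L) :
    Tendsto (fun ε ↦ ta L ε i) (𝓝[≠] 0) (𝓝 ((4 / 3) * ((i : ℕ) + 1))) := by
  have h : Tendsto (fun ε ↦ ta L ε i) (𝓝[≠] 0) (𝓝 (2 * ((i : ℕ) + 1) / (1 / 2 + 1))) := by
    refine Tendsto.div tendsto_const_nhds ((pt_tendsto L i).add tendsto_const_nhds) (by norm_num)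
  have e : (2 * ((i : ℕ) + 1) / (1 / 2 + 1) : ℂ) = (4 / 3) * ((i : ℕ) + 1) := by
    norm_num
    ring
  rwa [e] at h

/-- the kernel matrix along the path -/
noncomputable def KK (ε : ℂ) : Matrix (Fin L) (Fin L) ℂ := of fun i j ↦
  1 / (1 - (ε * sg L ε i) * (ε * ta L ε j)) +
    1 / ((1 - ε * sg L ε i) ^ p * (1 - ε * sg L ε i - ε * ta L ε j))

lemma eps_tendsto : Tendsto (fun ε : ℂ ↦ ε) (𝓝[≠] 0) (𝓝 0) :=
  tendsto_id.mono_left nhdsWithin_le_nhds

lemma den0_tendsto (i : Fin L) :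
    Tendsto (fun ε ↦ 1 - ε * sg L ε i) (𝓝[≠] 0) (𝓝 1) := by
  have h := (tendsto_const_nhds (x := (1 : ℂ))).sub (eps_tendsto.mul (sg_tendsto L i))
  simpa using h

lemma den1_tendsto (i j : Fin L) :
    Tendsto (fun ε ↦ 1 - (ε * sg L ε i) * (ε * ta L ε j)) (𝓝[≠] 0) (𝓝 1) := by
  have h := (tendsto_const_nhds (x := (1 : ℂ))).sub ((eps_tendsto.mul (sg_tendsto L i)).mul
    (eps_tendsto.mul (ta_tendsto L j)))
  simpa using h

lemma den2_tendsto (i j : Fin L) :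
    Tendsto (fun ε ↦ 1 - ε * sg L ε i - ε * ta L ε j) (𝓝[≠] 0) (𝓝 1) := by
  have h := ((tendsto_const_nhds (x := (1 : ℂ))).sub (eps_tendsto.mul (sg_tendsto L i))).sub
    (eps_tendsto.mul (ta_tendsto L j))
  simpa using h

lemma sg0_injective : Function.Injective fun i : Fin L ↦ (-(4 / 3) * ((i : ℕ) + 1) : ℂ) := by
  intro i j h
  have h1 : ((i : ℕ) : ℂ) = ((j : ℕ) : ℂ) := by
    have h2 : (-(4 / 3) : ℂ) ≠ 0 := by norm_num
    have h3 := mul_left_cancel₀ h2 h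
    exact add_right_cancel h3
  exact Fin.ext (by exact_mod_cast h1)

lemma ta0_injective : Function.Injective fun i : Fin L ↦ ((4 / 3) * ((i : ℕ) + 1) : ℂ) := by
  intro i j h
  have h1 : ((i : ℕ) : ℂ) = ((j : ℕ) : ℂ) := by
    have h2 : ((4 / 3) : ℂ) ≠ 0 := by norm_num
    have h3 := mul_left_cancel₀ h2 h
    exact add_right_cancel h3
  exact Fin.ext (by exact_mod_cast h1)

lemma KK_det_tendsto :
    Tendsto (fun ε ↦ (KK p L ε).det / (∏ k : Fin L, ε ^ (k : ℕ)) ^ 2) (𝓝[≠] 0)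
      (𝓝 (((1 : Matrix (Fin L) (Fin L) ℂ) + PP p L).det *
        (vandermonde fun i : Fin L ↦ (-(4 / 3) * ((i : ℕ) + 1) : ℂ)).det *
        (vandermonde fun i : Fin L ↦ ((4 / 3) * ((i : ℕ) + 1) : ℂ)).det)) := by
  rcases Nat.eq_zero_or_pos L with h0 | h0
  · subst h0
    simp [det_fin_zero]
  obtain ⟨M, hM⟩ : ∃ M, 2 * L = M + 1 := ⟨2 * L - 1, by omega⟩
  rw [← cp_matrix]
  refine confl (sg L) (ta L) _ _ (sg0_injective L) (ta0_injective L) (sg_tendsto L)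
    (ta_tendsto L) (cp p (2 * L))
    (fun ε i j ↦ (ε * (sg L ε i * ta L ε j)) ^ (2 * L) /
      (1 - (ε * sg L ε i) * (ε * ta L ε j)) + rr M p ε (sg L ε i) (ta L ε j))
    (fun i j ↦ (0 * ((-(4 / 3) * ((i : ℕ) + 1)) * ((4 / 3) * ((j : ℕ) + 1)))) ^ (2 * L) /
      1 + rr M p 0 (-(4 / 3) * ((i : ℕ) + 1)) ((4 / 3) * ((j : ℕ) + 1)))
    ?_ (KK p L) ?_
  · intro i j
    refine Tendsto.add ?_ ?_
    · refine Tendsto.div ?_ (den1_tendsto L i j) one_ne_zero
      exact (eps_tendsto.mul ((sg_tendsto L i).mul (ta_tendsto L j))).pow _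
    · exact rr_tendsto M p (sg_tendsto L i) (ta_tendsto L j)
  · have h1 : ∀ᶠ ε in 𝓝[≠] (0 : ℂ), ∀ i j : Fin L,
        1 - (ε * sg L ε i) * (ε * ta L ε j) ≠ 0 := by
      rw [eventually_all]
      intro i
      rw [eventually_all]
      intro j
      exact (den1_tendsto L i j).eventually_ne one_ne_zero
    have h2 : ∀ᶠ ε in 𝓝[≠] (0 : ℂ), ∀ i j : Fin L,
        1 - ε * sg L ε i - ε * ta L ε j ≠ 0 := by
      rw [eventually_all]
      intro i
      rw [eventually_all]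
      intro j
      exact (den2_tendsto L i j).eventually_ne one_ne_zero
    have h3 : ∀ᶠ ε in 𝓝[≠] (0 : ℂ), ∀ i : Fin L, 1 - ε * sg L ε i ≠ 0 := by
      rw [eventually_all]
      intro i
      exact (den0_tendsto L i).eventually_ne one_ne_zero
    filter_upwards [h1, h2, h3] with ε h1 h2 h3 i j
    simp only [KK, of_apply]
    rw [expansion M p _ _ _ (h3 i) (h2 i j), cp_sum, ← hM]
    have h6 : ∑ m ∈ range (2 * L), (ε * sg L ε i * (ε * ta L ε j)) ^ m =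
        (1 - (ε * sg L ε i * (ε * ta L ε j)) ^ (2 * L)) /
          (1 - ε * sg L ε i * (ε * ta L ε j)) := by
      rw [eq_div_iff (h1 i j), mul_comm]
      exact mul_neg_geom_sum _ _
    have e1 : ε * sg L ε i * (ε * ta L ε j) = ε * (ε * (sg L ε i * ta L ε j)) := by ring
    have e2 : (ε * sg L ε i * (ε * ta L ε j)) ^ (2 * L) =
      ε ^ (2 * L) * (ε * (sg L ε i * ta L ε j)) ^ (2 * L) := by rw [e1, mul_pow]
    rw [h6, e2]
    have h7 := h1 i j
    field_simp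
    ring

lemma key_id1 (a b : ℂ) (h1 : a - 2 ≠ 0) (h2 : b + 1 ≠ 0) (h3 : D b a ≠ 0) :
    1 / D b a = -3 / ((a - 2) * (b + 1)) *
      (1 / (1 - ((2 * a - 1) / (a - 2)) * ((2 * b - 1) / (b + 1)))) := by
  have e1 : 1 - ((2 * a - 1) / (a - 2)) * ((2 * b - 1) / (b + 1)) =
      -3 * D b a / ((a - 2) * (b + 1)) := by
    unfold D
    field_simp
    ring
  rw [e1]
  field_simp

lemma key_id2 (a b : ℂ) (h1 : a - 2 ≠ 0) (h2 : b + 1 ≠ 0) (h4 : D a b ≠ 0) :
    1 / D a b = -3 / ((a - 2) * (b + 1)) *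
      (1 / (1 - (2 * a - 1) / (a - 2) - (2 * b - 1) / (b + 1))) := by
  have e2 : 1 - (2 * a - 1) / (a - 2) - (2 * b - 1) / (b + 1) =
      -3 * D a b / ((a - 2) * (b + 1)) := by
    unfold D
    field_simp
    ring
  rw [e2]
  field_simp

lemma D_tendsto (i j : Fin L) :
    Tendsto (fun ε ↦ D (pt L ε i) (pt L ε j)) (𝓝[≠] 0) (𝓝 (3 / 4)) := by
  have h : Tendsto (fun ε ↦ 1 - pt L ε j + pt L ε i * pt L ε j) (𝓝[≠] 0)
      (𝓝 (1 - 1 / 2 + 1 / 2 * (1 / 2))) :=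
    (tendsto_const_nhds.sub (pt_tendsto L j)).add ((pt_tendsto L i).mul (pt_tendsto L j))
  have e : (1 - 1 / 2 + 1 / 2 * (1 / 2) : ℂ) = 3 / 4 := by norm_num
  rw [e] at h
  exact h

lemma prod_eps (ε : ℂ) :
    ∏ i : Fin L, ∏ _j ∈ Ioi i, ε = ∏ k : Fin L, ε ^ (k : ℕ) := by
  have h1 : ∀ i : Fin L, ∏ _j ∈ Ioi i, ε = ε ^ ((Fin.rev i : Fin L) : ℕ) := by
    intro i
    rw [prod_const, Fin.card_Ioi, Fin.val_rev]
    congr 1
    omega
  simp only [h1]
  exact Equiv.prod_comp Fin.revPerm fun k : Fin L ↦ ε ^ (k : ℕ)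

lemma prod_pairs (c : ℂ) : ∏ i : Fin L, ∏ _j ∈ Ioi i, (c ^ 2) = c ^ (L * (L - 1)) := by
  rw [prod_eps, prod_pow_eq_pow_sum, ← pow_mul]
  congr 1
  rw [Fin.sum_univ_eq_sum_range (fun k ↦ k) L, mul_comm, sum_range_id_mul_two]

/-- ordered pairs versus unordered pairs -/
lemma prod_ordered (f : Fin L → Fin L → ℂ) :
    ∏ i, ∏ j, (if i = j then 1 else f i j) = ∏ i, ∏ j ∈ Ioi i, (f i j * f j i) := by
  have h1 : ∀ i : Fin L, ∏ j, (if i = j then 1 else f i j) =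
      (∏ j ∈ Ioi i, f i j) * ∏ j ∈ Iio i, f i j := by
    intro i
    have h2 : (univ : Finset (Fin L)) = insert i (Ioi i ∪ Iio i) := by
      ext j
      simp only [mem_univ, mem_insert, mem_union, mem_Ioi, mem_Iio, true_iff]
      rcases lt_trichotomy i j with h | h | h
      · exact Or.inr (Or.inl h)
      · exact Or.inl h.symm
      · exact Or.inr (Or.inr h)
    have h3 : Disjoint (Ioi i) (Iio i) := by
      rw [disjoint_left]
      intro j h4 h5
      rw [mem_Ioi] at h4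
      rw [mem_Iio] at h5
      exact lt_asymm h4 h5
    rw [h2, prod_insert (by simp), if_pos rfl, one_mul, prod_union h3]
    congr 1
    · refine prod_congr rfl fun j hj => ?_
      rw [if_neg (ne_of_lt (mem_Ioi.1 hj))]
    · refine prod_congr rfl fun j hj => ?_
      rw [if_neg (ne_of_gt (mem_Iio.1 hj))]
  simp only [h1, prod_mul_distrib]
  congr 1
  refine prod_comm' ?_
  intro i j
  simp

lemma V1_const (a : ℂ) : V1 (fun _ : Fin p => (1 / 2 : ℂ)) a = ((1 + a) / 2) ^ p := by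
  unfold V1 D
  rw [prod_const, card_univ, Fintype.card_fin]
  congr 1
  ring

lemma V2_const (a : ℂ) : V2 (fun _ : Fin p => (1 / 2 : ℂ)) a = ((2 - a) / 2) ^ p := by
  unfold V2 D
  rw [prod_const, card_univ, Fintype.card_fin]
  congr 1
  ring

lemma det_eq (ε : ℂ) (h1 : ∀ i, pt L ε i - 2 ≠ 0) (h2 : ∀ i, pt L ε i + 1 ≠ 0)
    (h3 : ∀ i j, D (pt L ε i) (pt L ε j) ≠ 0) :
    det (of fun i j ↦ V1 (fun _ : Fin p => (1 / 2 : ℂ)) (pt L ε i) / D (pt L ε j) (pt L ε i) +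
      V2 (fun _ : Fin p => (1 / 2 : ℂ)) (pt L ε i) / D (pt L ε i) (pt L ε j)) =
      (∏ i, (((1 + pt L ε i) / 2) ^ p * (-3 / (pt L ε i - 2)))) *
        ((∏ j, (1 / (pt L ε j + 1))) * (KK p L ε).det) := by
  rw [← det_mul_row, ← det_mul_column]
  congr 1
  ext i j
  simp only [of_apply, KK]
  have h4 := h1 i
  have h5 := h2 j
  have h6 := h2 i
  have h7 := h3 j i
  have h8 := h3 i j
  have e1 : ε * sg L ε i = (2 * pt L ε i - 1) / (pt L ε i - 2) := by
    unfold sg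
    field_simp
    unfold pt
    ring
  have e2 : ε * ta L ε j = (2 * pt L ε j - 1) / (pt L ε j + 1) := by
    unfold ta
    field_simp
    unfold pt
    ring
  have e3 : 1 - ε * sg L ε i = -(pt L ε i + 1) / (pt L ε i - 2) := by
    rw [e1]
    field_simp
    ring
  have e4 : ((2 - pt L ε i) / 2) ^ p * (1 - ε * sg L ε i) ^ p = ((1 + pt L ε i) / 2) ^ p := by
    rw [← mul_pow, e3]
    congr 1
    field_simp
    ring
  have e5 : (1 - ε * sg L ε i) ^ p ≠ 0 := by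
    apply pow_ne_zero
    rw [e3]
    exact div_ne_zero (neg_ne_zero.2 h6) h4
  rw [V1_const, V2_const, div_eq_mul_one_div _ (D (pt L ε j) (pt L ε i)),
    div_eq_mul_one_div _ (D (pt L ε i) (pt L ε j)), key_id1 _ _ h4 h5 h7, key_id2 _ _ h4 h5 h8,
    ← e1, ← e2, ← e4]
  field_simp
  ring

lemma pairs_eq (ε : ℂ) (f : Fin L → Fin L → ℂ) :
    ∏ i, ∏ j ∈ Ioi i, (f i j / (pt L ε i - pt L ε j) * (f j i / (pt L ε j - pt L ε i))) =
      (∏ i, ∏ j ∈ Ioi i, (-(f i j * f j i) / (((i : ℕ) : ℂ) - ((j : ℕ) : ℂ)) ^ 2)) /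
        (∏ k : Fin L, ε ^ (k : ℕ)) ^ 2 := by
  rw [← prod_eps, ← prod_pow, ← prod_div_distrib]
  refine prod_congr rfl fun i _ ↦ ?_
  rw [← prod_pow, ← prod_div_distrib]
  refine prod_congr rfl fun j _ ↦ ?_
  have e : pt L ε i - pt L ε j = (((i : ℕ) : ℂ) - ((j : ℕ) : ℂ)) * ε := by
    unfold pt; ring
  have e' : pt L ε j - pt L ε i = -((((i : ℕ) : ℂ) - ((j : ℕ) : ℂ)) * ε) := by
    unfold pt; ring
  rw [e, e', div_mul_div_comm, div_div]
  have e3 : (((i : ℕ) : ℂ) - ((j : ℕ) : ℂ)) * ε * -((((i : ℕ) : ℂ) - ((j : ℕ) : ℂ)) * ε) =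
      -((((i : ℕ) : ℂ) - ((j : ℕ) : ℂ)) ^ 2 * ε ^ 2) := by ring
  rw [e3, div_neg, neg_div]

/-- The homogeneous limit. -/
theorem FF_tendsto :
    Tendsto (fun ε : ℂ ↦ FF (fun _ : Fin p => (1 / 2 : ℂ)) (pt L ε)) (𝓝[≠] 0)
      (𝓝 ((3 / 4) ^ (L * (L - 1) + p * L) * ((1 : Matrix (Fin L) (Fin L) ℂ) + PP p L).det)) := by
  set W1 := (vandermonde fun i : Fin L ↦ (-(4 / 3) * ((i : ℕ) + 1) : ℂ)).det with hW1
  set W2 := (vandermonde fun i : Fin L ↦ ((4 / 3) * ((i : ℕ) + 1) : ℂ)).det with hW2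
  set dd := ((1 : Matrix (Fin L) (Fin L) ℂ) + PP p L).det with hdd
  have hlim : Tendsto (fun ε : ℂ ↦
      ((∏ i, (((1 + pt L ε i) / 2) ^ p * (-3 / (pt L ε i - 2)))) *
        ((∏ j, (1 / (pt L ε j + 1))) *
        ((KK p L ε).det / (∏ k : Fin L, ε ^ (k : ℕ)) ^ 2))) *
      (∏ i, D (pt L ε i) (pt L ε i)) *
      ∏ i, ∏ j ∈ Ioi i, (-(D (pt L ε i) (pt L ε j) * D (pt L ε j) (pt L ε i) *
        (D (pt L ε j) (pt L ε i) * D (pt L ε i) (pt L ε j))) /
        (((i : ℕ) : ℂ) - ((j : ℕ) : ℂ)) ^ 2)) (𝓝[≠] 0)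
      (𝓝 (((∏ _i : Fin L, (((1 + 1 / 2) / 2) ^ p * (-3 / (1 / 2 - 2)))) *
        ((∏ _j : Fin L, (1 / (1 / 2 + 1))) * (dd * W1 * W2))) *
      (∏ _i : Fin L, (3 / 4)) *
      ∏ i : Fin L, ∏ j ∈ Ioi i, (-(3 / 4 * (3 / 4) * (3 / 4 * (3 / 4))) /
        (((i : ℕ) : ℂ) - ((j : ℕ) : ℂ)) ^ 2))) := by
    refine Tendsto.mul (Tendsto.mul (Tendsto.mul ?_
      (Tendsto.mul ?_ (KK_det_tendsto p L))) ?_) ?_
    · exact tendsto_finsetProd _ fun i _ ↦ Tendsto.mul
        (((tendsto_const_nhds.add (pt_tendsto L i)).div_const 2).pow p)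
        (Tendsto.div tendsto_const_nhds ((pt_tendsto L i).sub tendsto_const_nhds) (by norm_num))
    · exact tendsto_finsetProd _ fun i _ ↦ Tendsto.div tendsto_const_nhds
        ((pt_tendsto L i).add tendsto_const_nhds) (by norm_num)
    · exact tendsto_finsetProd _ fun i _ ↦ D_tendsto L i i
    · exact tendsto_finsetProd _ fun i _ ↦ tendsto_finsetProd _ fun j _ ↦
        ((((D_tendsto L i j).mul (D_tendsto L j i)).mul
          ((D_tendsto L j i).mul (D_tendsto L i j))).neg).div_const _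
  have hval : ((∏ _i : Fin L, (((1 + 1 / 2) / 2) ^ p * (-3 / (1 / 2 - 2)))) *
        ((∏ _j : Fin L, (1 / (1 / 2 + 1))) * (dd * W1 * W2))) *
      (∏ _i : Fin L, (3 / 4)) *
      ∏ i : Fin L, ∏ j ∈ Ioi i, (-(3 / 4 * (3 / 4) * (3 / 4 * (3 / 4))) /
        (((i : ℕ) : ℂ) - ((j : ℕ) : ℂ)) ^ 2) =
      (3 / 4) ^ (L * (L - 1) + p * L) * dd := by
    have e1 : W1 * W2 * ∏ i : Fin L, ∏ j ∈ Ioi i, (-(3 / 4 * (3 / 4) * (3 / 4 * (3 / 4))) /
        (((i : ℕ) : ℂ) - ((j : ℕ) : ℂ)) ^ 2) = (3 / 4) ^ (L * (L - 1)) := by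
      rw [← prod_pairs, hW1, hW2, det_vandermonde, det_vandermonde, ← prod_mul_distrib,
        ← prod_mul_distrib]
      refine prod_congr rfl fun i _ ↦ ?_
      rw [← prod_mul_distrib, ← prod_mul_distrib]
      refine prod_congr rfl fun j hj ↦ ?_
      have hij : (((i : ℕ) : ℂ) - ((j : ℕ) : ℂ)) ≠ 0 := by
        rw [sub_ne_zero]
        have := mem_Ioi.1 hj
        intro h
        have h2 : (i : ℕ) = (j : ℕ) := by exact_mod_cast h
        exact this.ne (Fin.ext h2)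
      field_simp
      ring
    have e2 : (∏ _i : Fin L, (((1 + 1 / 2) / 2) ^ p * (-3 / (1 / 2 - 2)) : ℂ)) *
        (∏ _j : Fin L, (1 / (1 / 2 + 1) : ℂ)) * (∏ _i : Fin L, (3 / 4 : ℂ)) =
        (3 / 4) ^ (p * L) := by
      rw [← prod_mul_distrib, ← prod_mul_distrib, pow_mul, prod_const, card_univ,
        Fintype.card_fin]
      congr 1
      have e3 : ((1 + 1 / 2) / 2 : ℂ) = 3 / 4 := by norm_num
      rw [e3]
      ring
    calc _ = (W1 * W2 * ∏ i : Fin L, ∏ j ∈ Ioi i, (-(3 / 4 * (3 / 4) * (3 / 4 * (3 / 4))) /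
          (((i : ℕ) : ℂ) - ((j : ℕ) : ℂ)) ^ 2)) *
          ((∏ _i : Fin L, (((1 + 1 / 2) / 2) ^ p * (-3 / (1 / 2 - 2)) : ℂ)) *
          (∏ _j : Fin L, (1 / (1 / 2 + 1) : ℂ)) * (∏ _i : Fin L, (3 / 4 : ℂ))) * dd := by ring
      _ = _ := by rw [e1, e2, pow_add]
  rw [hval] at hlim
  refine hlim.congr' ?_
  have h1 : ∀ᶠ ε in 𝓝[≠] (0 : ℂ), ∀ i : Fin L, pt L ε i - 2 ≠ 0 := by
    rw [eventually_all]
    intro i
    exact ((pt_tendsto L i).sub tendsto_const_nhds).eventually_ne (by norm_num)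
  have h2 : ∀ᶠ ε in 𝓝[≠] (0 : ℂ), ∀ i : Fin L, pt L ε i + 1 ≠ 0 := by
    rw [eventually_all]
    intro i
    exact ((pt_tendsto L i).add tendsto_const_nhds).eventually_ne (by norm_num)
  have h3 : ∀ᶠ ε in 𝓝[≠] (0 : ℂ), ∀ i j : Fin L, D (pt L ε i) (pt L ε j) ≠ 0 := by
    rw [eventually_all]
    intro i
    rw [eventually_all]
    intro j
    exact (D_tendsto L i j).eventually_ne (by norm_num)
  filter_upwards [h1, h2, h3] with ε h1 h2 h3
  unfold FF
  rw [det_eq p L ε h1 h2 h3, prod_ordered, pairs_eq L ε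
    (fun i j => D (pt L ε i) (pt L ε j) * D (pt L ε j) (pt L ε i))]
  ring

/-- The homogeneous limit, in the form with explicit path. -/
theorem FF_tendsto' (m : ℕ) :
    Tendsto (fun ε : ℂ ↦ FF (fun _ : Fin p => (1 / 2 : ℂ))
      (fun i : Fin m => 1 / 2 + ε * ((i : ℕ) + 1))) (𝓝[≠] 0)
      (𝓝 ((3 / 4) ^ (m * (m - 1) + p * m) * ((1 : Matrix (Fin m) (Fin m) ℂ) + PP p m).det)) :=
  FF_tendsto p m

end assembly

end Legs

end Pool.Agent.H23.BO
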