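import Mathlib

/-!
# Confluent limits of kernel determinants

If `K ε i j = ∑ c k l (ε σ_i)^k (ε τ_j)^l + O(ε^(2L))` for distinct directions `σ_i`, `τ_j`, then
`det K / ε^(L(L-1))` converges to `det (c k l) * Vandermonde σ * Vandermonde τ`.
-/

namespace Pool.Agent.H23.BO

open Finset Filter Topology Matrix

section confl

variable {L : ℕ}

/-- the scaled coordinate functional -/
noncomputable def coord (σ : ℂ → Fin L → ℂ) (k' : Fin L) (k : ℕ) (ε : ℂ) : ℂ :=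
  (ε ^ (k' : ℕ))⁻¹ * (ε ^ k * ∑ i, (vandermonde (σ ε))⁻¹ k' i * σ ε i ^ k)

lemma tendsto_matrix {X : Type*} {l : Filter X} {f : X → Matrix (Fin L) (Fin L) ℂ}
    {A : Matrix (Fin L) (Fin L) ℂ} :
    Tendsto f l (𝓝 A) ↔ ∀ i j, Tendsto (fun ε ↦ f ε i j) l (𝓝 (A i j)) := by
  refine ⟨fun h i j ↦ ?_, fun h ↦ ?_⟩
  · exact ((continuous_id.matrix_elem i j).tendsto A).comp h
  · exact tendsto_pi_nhds.2 fun i ↦ tendsto_pi_nhds.2 fun j ↦ h i j

lemma sum_comm4 {A B : Type*} (s : Finset A) (t : Finset B) (G : A → A → B → B → ℂ) :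
    ∑ k ∈ s, ∑ l ∈ s, ∑ i ∈ t, ∑ j ∈ t, G k l i j =
      ∑ i ∈ t, ∑ j ∈ t, ∑ k ∈ s, ∑ l ∈ s, G k l i j := by
  calc ∑ k ∈ s, ∑ l ∈ s, ∑ i ∈ t, ∑ j ∈ t, G k l i j
      = ∑ k ∈ s, ∑ i ∈ t, ∑ l ∈ s, ∑ j ∈ t, G k l i j :=
        Finset.sum_congr rfl fun k _ ↦ Finset.sum_comm
    _ = ∑ i ∈ t, ∑ k ∈ s, ∑ l ∈ s, ∑ j ∈ t, G k l i j := Finset.sum_comm
    _ = ∑ i ∈ t, ∑ k ∈ s, ∑ j ∈ t, ∑ l ∈ s, G k l i j :=
        Finset.sum_congr rfl fun i _ ↦ Finset.sum_congr rfl fun k _ ↦ Finset.sum_comm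
    _ = ∑ i ∈ t, ∑ j ∈ t, ∑ k ∈ s, ∑ l ∈ s, G k l i j :=
        Finset.sum_congr rfl fun i _ ↦ Finset.sum_comm

lemma det_vandermonde_ne (σ0 : Fin L → ℂ) (h : Function.Injective σ0) :
    (vandermonde σ0).det ≠ 0 := det_vandermonde_ne_zero_iff.2 h

lemma tendsto_vandermonde (σ : ℂ → Fin L → ℂ) (σ0 : Fin L → ℂ)
    (hσ : ∀ i, Tendsto (fun ε ↦ σ ε i) (𝓝[≠] 0) (𝓝 (σ0 i))) :
    Tendsto (fun ε ↦ vandermonde (σ ε)) (𝓝[≠] 0) (𝓝 (vandermonde σ0)) := by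
  exact tendsto_matrix.2 fun i k ↦ (hσ i).pow k

lemma tendsto_vandermonde_inv (σ : ℂ → Fin L → ℂ) (σ0 : Fin L → ℂ) (h : Function.Injective σ0)
    (hσ : ∀ i, Tendsto (fun ε ↦ σ ε i) (𝓝[≠] 0) (𝓝 (σ0 i))) :
    Tendsto (fun ε ↦ (vandermonde (σ ε))⁻¹) (𝓝[≠] 0) (𝓝 (vandermonde σ0)⁻¹) := by
  have h1 : ContinuousAt Ring.inverse (vandermonde σ0).det := by
    have h2 : (Ring.inverse : ℂ → ℂ) = Inv.inv := Ring.inverse_eq_inv'
    rw [h2]
    exact continuousAt_inv₀ (det_vandermonde_ne σ0 h)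
  exact (continuousAt_matrix_inv _ h1).tendsto.comp (tendsto_vandermonde σ σ0 hσ)

lemma eventually_det_ne (σ : ℂ → Fin L → ℂ) (σ0 : Fin L → ℂ) (h : Function.Injective σ0)
    (hσ : ∀ i, Tendsto (fun ε ↦ σ ε i) (𝓝[≠] 0) (𝓝 (σ0 i))) :
    ∀ᶠ ε in 𝓝[≠] (0 : ℂ), (vandermonde (σ ε)).det ≠ 0 := by
  have h1 : Tendsto (fun ε ↦ (vandermonde (σ ε)).det) (𝓝[≠] 0) (𝓝 (vandermonde σ0).det) :=
    ((Continuous.matrix_det continuous_id).tendsto _).comp (tendsto_vandermonde σ σ0 hσ)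
  exact h1.eventually_ne (det_vandermonde_ne σ0 h)

lemma coord_tendsto (σ : ℂ → Fin L → ℂ) (σ0 : Fin L → ℂ) (h : Function.Injective σ0)
    (hσ : ∀ i, Tendsto (fun ε ↦ σ ε i) (𝓝[≠] 0) (𝓝 (σ0 i))) (k' : Fin L) (k : ℕ) :
    Tendsto (coord σ k' k) (𝓝[≠] 0) (𝓝 (if k = k' then 1 else 0)) := by
  by_cases hk : k < L
  · refine Tendsto.congr' ?_ tendsto_const_nhds
    filter_upwards [eventually_det_ne σ σ0 h hσ, self_mem_nhdsWithin] with ε hdet hε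
    have h1 : ∑ i, (vandermonde (σ ε))⁻¹ k' i * σ ε i ^ k = if k = k' then 1 else 0 := by
      have h2 : (vandermonde (σ ε))⁻¹ * vandermonde (σ ε) = 1 :=
        nonsing_inv_mul _ (Ne.isUnit hdet)
      have h3 := congrFun (congrFun h2 k') ⟨k, hk⟩
      rw [mul_apply, one_apply] at h3
      simp only [vandermonde_apply] at h3
      rw [h3]
      congr 1
      rw [Fin.ext_iff]
      exact propext eq_comm
    unfold coord
    rw [h1]
    split_ifs with h4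
    · rw [h4, mul_one, inv_mul_cancel₀ (pow_ne_zero _ hε)]
    · simp
  · have hk' : (k' : ℕ) < k := lt_of_lt_of_le k'.2 (not_lt.1 hk)
    rw [if_neg (by omega)]
    have h1 : Tendsto (fun ε ↦ ∑ i, (vandermonde (σ ε))⁻¹ k' i * σ ε i ^ k) (𝓝[≠] 0)
        (𝓝 (∑ i, (vandermonde σ0)⁻¹ k' i * σ0 i ^ k)) := by
      refine tendsto_finsetSum _ fun i _ ↦ ?_
      have h2 := tendsto_matrix.1 (tendsto_vandermonde_inv σ σ0 h hσ)
      exact (h2 k' i).mul ((hσ i).pow k)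
    have h2 : Tendsto (fun ε : ℂ ↦ ε ^ (k - (k' : ℕ))) (𝓝[≠] 0) (𝓝 0) := by
      have h3 : Tendsto (fun ε : ℂ ↦ ε ^ (k - (k' : ℕ))) (𝓝 0) (𝓝 (0 ^ (k - (k' : ℕ)))) :=
        (continuous_pow _).tendsto 0
      rw [zero_pow (by omega)] at h3
      exact h3.mono_left nhdsWithin_le_nhds
    have h3 := h2.mul h1
    rw [zero_mul] at h3
    refine h3.congr' ?_
    filter_upwards [self_mem_nhdsWithin] with ε hε
    unfold coord
    rw [← mul_assoc]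
    congr 1
    have h4 : ε ^ k = ε ^ (k' : ℕ) * ε ^ (k - (k' : ℕ)) := by
      rw [← pow_add]
      congr 1
      omega
    rw [h4, inv_mul_cancel_left₀ (pow_ne_zero _ hε)]

/-- The confluent limit. -/
theorem confl (σ τ : ℂ → Fin L → ℂ) (σ0 τ0 : Fin L → ℂ) (h1 : Function.Injective σ0)
    (h2 : Function.Injective τ0)
    (hσ : ∀ i, Tendsto (fun ε ↦ σ ε i) (𝓝[≠] 0) (𝓝 (σ0 i)))
    (hτ : ∀ i, Tendsto (fun ε ↦ τ ε i) (𝓝[≠] 0) (𝓝 (τ0 i)))
    (c : ℕ → ℕ → ℂ) (ρ : ℂ → Fin L → Fin L → ℂ) (ρ0 : Fin L → Fin L → ℂ)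
    (hρ : ∀ i j, Tendsto (fun ε ↦ ρ ε i j) (𝓝[≠] 0) (𝓝 (ρ0 i j)))
    (K : ℂ → Matrix (Fin L) (Fin L) ℂ)
    (hK : ∀ᶠ ε in 𝓝[≠] (0 : ℂ), ∀ i j, K ε i j =
      (∑ k ∈ range (2 * L), ∑ l ∈ range (2 * L), c k l * (ε * σ ε i) ^ k * (ε * τ ε j) ^ l) +
        ε ^ (2 * L) * ρ ε i j) :
    Tendsto (fun ε ↦ (K ε).det / (∏ k : Fin L, ε ^ (k : ℕ)) ^ 2) (𝓝[≠] 0)
      (𝓝 ((Matrix.of fun k l : Fin L ↦ c k l).det * (vandermonde σ0).det *
        (vandermonde τ0).det)) := by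
  set D : ℂ → Matrix (Fin L) (Fin L) ℂ := fun ε ↦ diagonal fun k : Fin L ↦ (ε ^ (k : ℕ))⁻¹
    with hD
  set M : ℂ → Matrix (Fin L) (Fin L) ℂ := fun ε ↦
    D ε * ((vandermonde (σ ε))⁻¹ * K ε * ((vandermonde (τ ε))⁻¹)ᵀ) * D ε with hM
  have hMapply : ∀ ε k' l', M ε k' l' = (ε ^ (k' : ℕ))⁻¹ * (ε ^ (l' : ℕ))⁻¹ *
      ∑ i, ∑ j, (vandermonde (σ ε))⁻¹ k' i * (vandermonde (τ ε))⁻¹ l' j * K ε i j := by
    intro ε k' l'
    simp only [hM, hD]
    rw [mul_diagonal, diagonal_mul]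
    have h3 : ((vandermonde (σ ε))⁻¹ * K ε * ((vandermonde (τ ε))⁻¹)ᵀ) k' l' =
        ∑ i, ∑ j, (vandermonde (σ ε))⁻¹ k' i * (vandermonde (τ ε))⁻¹ l' j * K ε i j := by
      simp only [mul_apply, transpose_apply, Finset.sum_mul]
      rw [Finset.sum_comm]
      refine Finset.sum_congr rfl fun i _ ↦ Finset.sum_congr rfl fun j _ ↦ ?_
      ring
    rw [h3]
    ring
  have hMt : Tendsto M (𝓝[≠] 0) (𝓝 (Matrix.of fun k l : Fin L ↦ c k l)) := by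
    rw [tendsto_matrix]
    intro k' l'
    have e1 : Tendsto (fun ε ↦ (∑ k ∈ range (2 * L), ∑ l ∈ range (2 * L),
        c k l * coord σ k' k ε * coord τ l' l ε) +
        ε ^ (2 * L - (k' : ℕ) - (l' : ℕ)) * ∑ i, ∑ j,
          (vandermonde (σ ε))⁻¹ k' i * (vandermonde (τ ε))⁻¹ l' j * ρ ε i j) (𝓝[≠] 0)
        (𝓝 ((∑ k ∈ range (2 * L), ∑ l ∈ range (2 * L),
        c k l * (if k = k' then 1 else 0) * (if l = l' then 1 else 0)) +
        0 * ∑ i, ∑ j,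
          (vandermonde σ0)⁻¹ k' i * (vandermonde τ0)⁻¹ l' j * ρ0 i j)) := by
      refine Tendsto.add ?_ (Tendsto.mul ?_ ?_)
      · exact tendsto_finsetSum _ fun k _ ↦ tendsto_finsetSum _ fun l _ ↦
          (tendsto_const_nhds.mul (coord_tendsto σ σ0 h1 hσ k' k)).mul
            (coord_tendsto τ τ0 h2 hτ l' l)
      · have h3 : Tendsto (fun ε : ℂ ↦ ε ^ (2 * L - (k' : ℕ) - (l' : ℕ))) (𝓝 0)
            (𝓝 (0 ^ (2 * L - (k' : ℕ) - (l' : ℕ)))) := (continuous_pow _).tendsto 0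
        rw [zero_pow (by omega)] at h3
        exact h3.mono_left nhdsWithin_le_nhds
      · refine tendsto_finsetSum _ fun i _ ↦ tendsto_finsetSum _ fun j _ ↦ ?_
        have h3 := tendsto_matrix.1 (tendsto_vandermonde_inv σ σ0 h1 hσ)
        have h5 := tendsto_matrix.1 (tendsto_vandermonde_inv τ τ0 h2 hτ)
        exact ((h3 k' i).mul (h5 l' j)).mul (hρ i j)
    have e2 : (∑ k ∈ range (2 * L), ∑ l ∈ range (2 * L),
        c k l * (if k = k' then 1 else 0) * (if l = l' then 1 else 0)) +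
        0 * ∑ i, ∑ j, (vandermonde σ0)⁻¹ k' i * (vandermonde τ0)⁻¹ l' j * ρ0 i j =
        (Matrix.of fun k l : Fin L ↦ c k l) k' l' := by
      rw [zero_mul, add_zero, Finset.sum_eq_single (k' : ℕ), Finset.sum_eq_single (l' : ℕ)]
      · simp
      · intro l _ hl
        simp [hl]
      · intro hl
        exact absurd (Finset.mem_range.2 (by omega)) hl
      · intro k _ hk
        simp [hk]
      · intro hk
        exact absurd (Finset.mem_range.2 (by omega)) hk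
    rw [e2] at e1
    refine e1.congr' ?_
    filter_upwards [hK, self_mem_nhdsWithin] with ε hKε hε
    rw [hMapply]
    simp only [hKε]
    have e3 : ∀ i j : Fin L, (vandermonde (σ ε))⁻¹ k' i * (vandermonde (τ ε))⁻¹ l' j *
        ((∑ k ∈ range (2 * L), ∑ l ∈ range (2 * L), c k l * (ε * σ ε i) ^ k * (ε * τ ε j) ^ l) +
          ε ^ (2 * L) * ρ ε i j) =
        (∑ k ∈ range (2 * L), ∑ l ∈ range (2 * L),
          c k l * (ε ^ k * ((vandermonde (σ ε))⁻¹ k' i * σ ε i ^ k)) *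
            (ε ^ l * ((vandermonde (τ ε))⁻¹ l' j * τ ε j ^ l))) +
        ε ^ (2 * L) * ((vandermonde (σ ε))⁻¹ k' i * (vandermonde (τ ε))⁻¹ l' j * ρ ε i j) := by
      intro i j
      rw [mul_add, Finset.mul_sum]
      congr 1
      · refine Finset.sum_congr rfl fun k _ ↦ ?_
        rw [Finset.mul_sum]
        refine Finset.sum_congr rfl fun l _ ↦ ?_
        rw [mul_pow, mul_pow]
        ring
      · ring
    simp only [e3, Finset.sum_add_distrib]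
    rw [mul_add]
    congr 1
    · have e4 : ∀ k l : ℕ, c k l * coord σ k' k ε * coord τ l' l ε =
          (ε ^ (k' : ℕ))⁻¹ * (ε ^ (l' : ℕ))⁻¹ * ∑ i, ∑ j,
            c k l * (ε ^ k * ((vandermonde (σ ε))⁻¹ k' i * σ ε i ^ k)) *
            (ε ^ l * ((vandermonde (τ ε))⁻¹ l' j * τ ε j ^ l)) := by
        intro k l
        unfold coord
        have e5 : ∑ i, ∑ j, c k l * (ε ^ k * ((vandermonde (σ ε))⁻¹ k' i * σ ε i ^ k)) *
            (ε ^ l * ((vandermonde (τ ε))⁻¹ l' j * τ ε j ^ l)) =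
            c k l * (ε ^ k * ∑ i, (vandermonde (σ ε))⁻¹ k' i * σ ε i ^ k) *
              (ε ^ l * ∑ j, (vandermonde (τ ε))⁻¹ l' j * τ ε j ^ l) := by
          simp only [Finset.mul_sum, Finset.sum_mul]
          rw [Finset.sum_comm]
        rw [e5]
        ring
      have e5 : ∑ k ∈ range (2 * L), ∑ l ∈ range (2 * L),
          c k l * coord σ k' k ε * coord τ l' l ε =
          (ε ^ (k' : ℕ))⁻¹ * (ε ^ (l' : ℕ))⁻¹ * ∑ k ∈ range (2 * L), ∑ l ∈ range (2 * L),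
            ∑ i, ∑ j, c k l * (ε ^ k * ((vandermonde (σ ε))⁻¹ k' i * σ ε i ^ k)) *
            (ε ^ l * ((vandermonde (τ ε))⁻¹ l' j * τ ε j ^ l)) := by
        rw [Finset.mul_sum]
        refine Finset.sum_congr rfl fun k _ ↦ ?_
        rw [Finset.mul_sum]
        exact Finset.sum_congr rfl fun l _ ↦ e4 k l
      rw [e5, sum_comm4]
    · have e6 : ε ^ (2 * L) = ε ^ (k' : ℕ) * ε ^ (l' : ℕ) * ε ^ (2 * L - (k' : ℕ) - (l' : ℕ)) := by
        rw [← pow_add, ← pow_add]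
        congr 1
        omega
      simp only [← Finset.mul_sum]
      rw [e6]
      have h5 : ε ^ (k' : ℕ) ≠ 0 := pow_ne_zero _ hε
      have h6 : ε ^ (l' : ℕ) ≠ 0 := pow_ne_zero _ hε
      field_simp
  have hdet : Tendsto (fun ε ↦ (M ε).det * (vandermonde (σ ε)).det * (vandermonde (τ ε)).det)
      (𝓝[≠] 0) (𝓝 ((Matrix.of fun k l : Fin L ↦ c k l).det * (vandermonde σ0).det *
        (vandermonde τ0).det)) := by
    have hc := (Continuous.matrix_det (A := fun A : Matrix (Fin L) (Fin L) ℂ ↦ A) continuous_id)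
    exact (((hc.tendsto _).comp hMt).mul ((hc.tendsto _).comp (tendsto_vandermonde σ σ0 hσ))).mul
      ((hc.tendsto _).comp (tendsto_vandermonde τ τ0 hτ))
  refine hdet.congr' ?_
  filter_upwards [eventually_det_ne σ σ0 h1 hσ, eventually_det_ne τ τ0 h2 hτ,
    self_mem_nhdsWithin] with ε hs ht hε
  have h3 : (∏ k : Fin L, ε ^ (k : ℕ)) ≠ 0 := Finset.prod_ne_zero_iff.2 fun k _ ↦ pow_ne_zero _ hε
  simp only [hM, hD, det_mul, det_diagonal, det_transpose, Finset.prod_inv_distrib]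
  rw [det_nonsing_inv, det_nonsing_inv, Ring.inverse_eq_inv']
  field_simp

end confl

end Pool.Agent.H23.BO
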